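import Mathlib
import Pool.Agent.Q248.CH.Basic

set_option autoImplicit false

/-!
# `c(F)` and homomorphisms: finiteness of `c` passes from `H` to all graphs mapping to `H`

`c(F)` is the constant of the question (`Pool.Agent.TH855.c`, starting library): the limsup over `Δ` of
the maxima of `χ(G) / (Δ / log Δ)` over the `F`-free graphs `G` of maximum degree `Δ`.

* If `H` is `2`-connected (at least three vertices, connected after deletion of any vertex) and there is a
  homomorphism from `F` to `H`, then `c(F) ≤ (|H| + |F|) ^ |H| * c(H)`.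
* So for `r ≥ 3` the Alon–Krivelevich–Sudakov conjecture for the single graph `K_r` is equivalent to it for
  all `r`-colourable graphs.
* There is `R`, `4 ≤ R ≤ ∞`, with `c(F) < ∞` whenever `χ(F) < R` and `c(F) = ∞` whenever `F` contains `K_R`.
* For homomorphically equivalent `2`-connected graphs the constants are finite simultaneously.
-/

namespace Pool.Agent.Results.MP_349e33_co.HomomorphicPreimages

open Pool.Agent.TH855 Pool.Agent.Q248.CH Classical
open scoped ENNReal

/-- at least three vertices, and connected after the deletion of any vertex -/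
def TwoConnected {U : Type} [Fintype U] (H : SimpleGraph U) : Prop :=
  3 ≤ Fintype.card U ∧ ∀ x : U, (H.induce {z | z ≠ x}).Connected

theorem two_top (r : ℕ) (hr : 3 ≤ r) : TwoConnected (⊤ : SimpleGraph (Fin r)) := by
  refine ⟨by rw [Fintype.card_fin]; exact hr, fun x => top_induce_connected _ ?_⟩
  by_cases h : x = ⟨0, by omega⟩
  · exact ⟨⟨1, by omega⟩, by rw [h]; simp [Fin.ext_iff]⟩
  · exact ⟨⟨0, by omega⟩, fun h' => h h'.symm⟩

theorem part1 {U W : Type} [Fintype U] [Fintype W] (H : SimpleGraph U) (F : SimpleGraph W)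
    (h2 : TwoConnected H) (φ : Nonempty (F →g H)) :
    c F ≤ (((Fintype.card U + Fintype.card W : ℕ) : ℝ≥0∞)) ^ Fintype.card U * c H :=
  φ.elim fun φ => main H F h2.2 h2.1 φ

theorem fin_of {U W : Type} [Fintype U] [Fintype W] (H : SimpleGraph U) (F : SimpleGraph W)
    (h2 : TwoConnected H) (φ : Nonempty (F →g H)) (h : c H < ∞) : c F < ∞ :=
  lt_of_le_of_lt (part1 H F h2 φ) (ENNReal.mul_lt_top (ENNReal.pow_lt_top (ENNReal.natCast_lt_top _)) h)

theorem part2 (r : ℕ) (hr : 3 ≤ r) : c (⊤ : SimpleGraph (Fin r)) < ∞ ↔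
    ∀ (W : Type) [Fintype W] (F : SimpleGraph W), F.Colorable r → c F < ∞ := by
  constructor
  · intro h W _ F hF
    exact fin_of _ F (two_top r hr) hF h
  · intro h
    exact h (Fin r) ⊤ (by
      have := (⊤ : SimpleGraph (Fin r)).colorable_of_fintype
      rwa [Fintype.card_fin] at this)

theorem c_top_mono {r s : ℕ} (h : r ≤ s) :
    c (⊤ : SimpleGraph (Fin r)) ≤ c (⊤ : SimpleGraph (Fin s)) :=
  c_mono ⟨⟨⟨Fin.castLE h, fun {a b} hab => fun he => hab (Fin.castLE_injective h he)⟩,
    Fin.castLE_injective h⟩⟩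

theorem part3 : ∃ R : ℕ∞, 4 ≤ R ∧ ∀ (W : Type) [Fintype W] (F : SimpleGraph W),
    (F.chromaticNumber < R → c F < ∞) ∧
    (∀ r : ℕ, R ≤ r → (⊤ : SimpleGraph (Fin r)).IsContained F → c F = ∞) := by
  by_cases hall : ∀ r : ℕ, c (⊤ : SimpleGraph (Fin r)) < ∞
  · refine ⟨⊤, le_top, fun W _ F => ⟨fun _ => ?_, fun r hr => ?_⟩⟩
    · have hcol : F.Colorable (Fintype.card W + 3) :=
        F.colorable_of_fintype.mono (by omega)
      exact (part2 _ (by omega)).1 (hall _) W F hcol
    · exact absurd (top_le_iff.1 hr) (ENat.natCast_ne_top r)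
  · push Not at hall
    set R : ℕ := Nat.find hall with hR
    have hRi : ∞ ≤ c (⊤ : SimpleGraph (Fin R)) := Nat.find_spec hall
    have hlt : ∀ s < R, c (⊤ : SimpleGraph (Fin s)) < ∞ := fun s hs =>
      not_le.1 (Nat.find_min hall hs)
    have h4 : 4 ≤ R := by
      by_contra hcon
      have h5 : R ≤ 3 := by omega
      have h6 := hRi.trans ((c_top_mono h5).trans c_triangle_le_one)
      exact absurd h6 (not_le.2 ENNReal.one_lt_top)
    refine ⟨(R : ℕ∞), by exact_mod_cast h4, fun W _ F => ⟨fun hχ => ?_, fun r hr hc => ?_⟩⟩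
    · have hcol : F.Colorable (R - 1) := by
        have h7 : F.chromaticNumber ≤ ((R - 1 : ℕ) : ℕ∞) := by
          rw [show (R : ℕ∞) = ((R - 1 : ℕ) : ℕ∞) + 1 from by
            have : R = (R - 1) + 1 := by omega
            exact_mod_cast this] at hχ
          exact ENat.lt_add_one_iff (ENat.natCast_ne_top _) |>.1 hχ
        exact SimpleGraph.chromaticNumber_le_iff_colorable.1 h7
      exact (part2 (R - 1) (by omega)).1 (hlt _ (by omega)) W F hcol
    · have h8 : R ≤ r := by exact_mod_cast hr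
      exact top_le_iff.1 (hRi.trans ((c_top_mono h8).trans (c_mono hc)))

/-- See the header. -/
theorem result :
    (∀ (U W : Type) [Fintype U] [Fintype W] (H : SimpleGraph U) (F : SimpleGraph W),
      TwoConnected H → Nonempty (F →g H) →
        c F ≤ (((Fintype.card U + Fintype.card W : ℕ) : ℝ≥0∞)) ^ Fintype.card U * c H) ∧
    (∀ r : ℕ, 3 ≤ r → (c (⊤ : SimpleGraph (Fin r)) < ∞ ↔
      ∀ (W : Type) [Fintype W] (F : SimpleGraph W), F.Colorable r → c F < ∞)) ∧
    (∃ R : ℕ∞, 4 ≤ R ∧ ∀ (W : Type) [Fintype W] (F : SimpleGraph W),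
      (F.chromaticNumber < R → c F < ∞) ∧
      (∀ r : ℕ, R ≤ r → (⊤ : SimpleGraph (Fin r)).IsContained F → c F = ∞)) ∧
    (∀ (U W : Type) [Fintype U] [Fintype W] (H : SimpleGraph U) (F : SimpleGraph W),
      TwoConnected H → TwoConnected F → Nonempty (F →g H) → Nonempty (H →g F) →
        (c F < ∞ ↔ c H < ∞)) :=
  ⟨fun _ _ _ _ H F h2 φ => part1 H F h2 φ, part2, part3,
    fun _ _ _ _ H F h2 h2' φ ψ => ⟨fin_of F H h2' ψ, fin_of H F h2 φ⟩⟩

end Pool.Agent.Results.MP_349e33_co.HomomorphicPreimages
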