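import Pool.Agent.Q208.PC.FFree
import Pool.Agent.Y388.CF.Basic
import Pool.Agent.Y388.CF.Transversal

/-!
# MP_349e33_co: `c(F) ≤ c` is equivalent to a lower bound for the number of colourings

If all `F`-free graphs of maximum degree `Δ` have chromatic number at most `(c + o(1)) Δ / log Δ`,
then an `F`-free graph with `n` vertices and maximum degree at most `Δ` has at least
`(q^(1 - o(1)) e^(-c Δ / q))^n` proper colourings with `q ≥ (c + ε) Δ / log Δ` colours; for
`q = λ Δ / log Δ` this is `Δ^((1 - c / λ - o(1)) n)`.  Unconditionally this holds with `c = 1` for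
every almost bipartite graph `F` (for example for `F = K_{1,t,t}`), and with `c = m` if `F` has a
proper `3`-colouring in which the vertices of one colour have degree at most `m` (`K_{t,t,t}`, with
`m = 2 t`).

Proof. Divide the colours into `s ≈ q^(1 - d) e^(-c Δ / q)` palettes. At least `(s (1 - 1/Δ))^n`
maps of the vertices to the palettes are good: each vertex has at most `(1 + o(1)) Δ / s`
neighbours with its palette (counting in the manner of Rosenfeld). The edges inside the classes form
an `F`-free graph, which can be coloured with the `⌊q / s⌋` colours of each palette; different good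
maps give different colourings.  The unconditional parts use the starting theorems on `c(F)`.
-/

set_option autoImplicit false

namespace Pool.Agent.Results.MP_349e33_co.ManyColourings

/-- `c(F) ≤ c`, in the form of the frozen statement `S08037`: for every `ε > 0` and all large `Δ`
every `F`-free graph of maximum degree `Δ` has chromatic number at most `(c + ε) Δ / log Δ`. -/
def AtMost {k : ℕ} (F : SimpleGraph (Fin k)) (c : ℝ) : Prop :=
  ∀ ε : ℝ, 0 < ε → ∃ Δ₀ : ℕ, ∀ Δ : ℕ, Δ₀ ≤ Δ →
    ∀ (V : Type) [Fintype V] (G : SimpleGraph V) [DecidableRel G.Adj],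
      F.Free G → G.maxDegree = Δ →
        ∃ n : ℕ, G.Colorable n ∧ (n : ℝ) ≤ (c + ε) * ((Δ : ℝ) / Real.log (Δ : ℝ))

/-- For all `ε, δ > 0`, all large `Δ`, all `F`-free graphs of maximum degree at most `Δ` and all
`q ≥ (c + ε) Δ / log Δ` the number of proper colourings with `q` colours is at least
`(q^(1 - δ) e^(-c Δ / q))^n`, where `n` is the number of vertices. -/
def Many {k : ℕ} (F : SimpleGraph (Fin k)) (c : ℝ) : Prop :=
  ∀ ε δ : ℝ, 0 < ε → 0 < δ → ∃ Δ₀ : ℕ, ∀ Δ : ℕ, Δ₀ ≤ Δ →
    ∀ (V : Type) [Finite V] (G : SimpleGraph V), F.Free G →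
      (∀ v, Nat.card (G.neighborSet v) ≤ Δ) → ∀ q : ℕ, (c + ε) * (Δ / Real.log Δ) ≤ q →
        ((q : ℝ) ^ (1 - δ) * Real.exp (-(c * (Δ / q)))) ^ Nat.card V ≤
          (Nat.card (G.Coloring (Fin q)) : ℝ)

theorem result :
    -- 1. for every graph `F` and every constant `c`
    (∀ (k : ℕ) (F : SimpleGraph (Fin k)) (c : ℝ), 0 ≤ c → (AtMost F c ↔ Many F c)) ∧
    -- 2. Q1
    ((∃ c : ℝ, 0 < c ∧ ∀ (k : ℕ) (F : SimpleGraph (Fin k)), AtMost F c) ↔
      ∃ c : ℝ, 0 < c ∧ ∀ (k : ℕ) (F : SimpleGraph (Fin k)), Many F c) ∧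
    -- 3. almost bipartite graphs
    (∀ (k : ℕ) (F : SimpleGraph (Fin k)),
      (F.Colorable 2 ∨ ∃ x, (F.induce {y | y ≠ x}).Colorable 2) → Many F 1) ∧
    -- 4. `3`-colourable graphs
    ∀ (k : ℕ) (F : SimpleGraph (Fin k)) (C : F.Coloring (Fin 3)) (i : Fin 3) (m : ℕ), 1 ≤ m →
      (∀ x, C x = i → (F.neighborSet x).ncard ≤ m) → Many F m := by
  have h : ∀ (k : ℕ) (F : SimpleGraph (Fin k)) (c : ℝ), 0 ≤ c → (AtMost F c ↔ Many F c) :=
    fun k F c hc => Pool.Agent.Q208.PC.atMost_iff_cnt F hc
  refine ⟨h, exists_congr fun c => and_congr_right fun hc => ?_, ?_, ?_⟩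
  · exact forall₂_congr fun k F => h k F c hc.le
  · intro k F hF
    refine (h k F 1 zero_le_one).1 ?_
    have h1 : Pool.Agent.TH855.c F ≤ ENNReal.ofReal 1 := by
      rw [ENNReal.ofReal_one]
      exact Pool.Agent.Y388.CF.c_almost_bipartite F hF
    exact Pool.Agent.TH855.upTo_of_c_le F 1 zero_le_one h1
  · intro k F C i m hm hdeg
    refine (h k F m (Nat.cast_nonneg m)).1 ?_
    have h1 : Pool.Agent.TH855.c F ≤ ENNReal.ofReal (m : ℝ) := by
      rw [ENNReal.ofReal_natCast]
      exact Pool.Agent.Y388.CF.three_colourable F C i m hm hdeg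
    exact Pool.Agent.TH855.upTo_of_c_le F m (Nat.cast_nonneg m) h1

end Pool.Agent.Results.MP_349e33_co.ManyColourings
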