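import Pool.Agent.Q208.PC.FFree

/-!
# MP_349e33_co: sparse sets of maximum degrees decide

It is enough to bound the chromatic numbers of the `F`-free graphs whose maximum degree is at most
`Δ` for the `Δ` in a sparse set `S`: if `S` meets all intervals `[x, x^R]` with large `x`, a bound
`(c + o(1)) Δ / log Δ` for the degrees in `S` gives `c(F) ≤ R c`. So Q1, and the finiteness of
`c(F)` (the conjecture of Alon, Krivelevich and Sudakov), are equivalent to the same statements for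
the degrees `2^(2^j)`, and if `S` meets all `[x, x^R]` for every `R > 1`, for example for
`S = {2^(j²)}`, then `c(F)` is the least constant for the degrees in `S`.

Proof. A graph of maximum degree `Δ` is divided into `(1 + o(1)) Δ / D` parts of maximum degree at
most `D`, for `D ∈ S` with `Δ^((1 - t) / R) ≤ D ≤ Δ^(1 - t)`.
-/

set_option autoImplicit false

open Filter

namespace Pool.Agent.Results.MP_349e33_co.SparseDegrees

/-- `c(F) ≤ c`, in the form of the frozen statement `S08037`: for every `ε > 0` and all large `Δ`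
every `F`-free graph of maximum degree `Δ` has chromatic number at most `(c + ε) Δ / log Δ`. -/
def AtMost {k : ℕ} (F : SimpleGraph (Fin k)) (c : ℝ) : Prop :=
  ∀ ε : ℝ, 0 < ε → ∃ Δ₀ : ℕ, ∀ Δ : ℕ, Δ₀ ≤ Δ →
    ∀ (V : Type) [Fintype V] (G : SimpleGraph V) [DecidableRel G.Adj],
      F.Free G → G.maxDegree = Δ →
        ∃ n : ℕ, G.Colorable n ∧ (n : ℝ) ≤ (c + ε) * ((Δ : ℝ) / Real.log (Δ : ℝ))

/-- For every `ε > 0` and all large `Δ ∈ S` every `F`-free graph of maximum degree at most `Δ` can be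
coloured with `q` colours, for all `q ≥ (c + ε) Δ / log Δ`. -/
def AtMostOn (S : Set ℕ) {k : ℕ} (F : SimpleGraph (Fin k)) (c : ℝ) : Prop :=
  ∀ ε : ℝ, 0 < ε → ∃ Δ₀ : ℕ, ∀ Δ ∈ S, Δ₀ ≤ Δ →
    ∀ (V : Type) [Finite V] (G : SimpleGraph V), F.Free G →
      (∀ v, Nat.card (G.neighborSet v) ≤ Δ) →
        ∀ q : ℕ, (c + ε) * (Δ / Real.log Δ) ≤ q → G.Colorable q

/-- `S` meets all intervals `[x, x^R]` with large `x`. -/
def Meets (S : Set ℕ) (R : ℝ) : Prop := ∀ᶠ x : ℝ in atTop, ∃ D ∈ S, x ≤ (D : ℝ) ∧ (D : ℝ) ≤ x ^ R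

theorem result :
    -- 1. Q1 is equivalent to Q1 for the degrees `2^(2^j)`
    ((∃ c : ℝ, 0 < c ∧ ∀ (k : ℕ) (F : SimpleGraph (Fin k)), AtMost F c) ↔
      ∃ c : ℝ, 0 < c ∧ ∀ (k : ℕ) (F : SimpleGraph (Fin k)),
        AtMostOn {n | ∃ j : ℕ, n = 2 ^ (2 ^ j)} F c) ∧
    -- 2. the same for the finiteness of `c(F)`, for each graph `F`
    (∀ (k : ℕ) (F : SimpleGraph (Fin k)), (∃ c : ℝ, 0 ≤ c ∧ AtMost F c) ↔
      ∃ c : ℝ, 0 ≤ c ∧ AtMostOn {n | ∃ j : ℕ, n = 2 ^ (2 ^ j)} F c) ∧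
    -- 3. the constant can be found with the degrees in `S` if `S` meets all `[x, x^R]`, `R > 1`
    (∀ S : Set ℕ, (∀ R : ℝ, 1 < R → Meets S R) → ∀ (k : ℕ) (F : SimpleGraph (Fin k)) (c : ℝ),
      0 ≤ c → (AtMost F c ↔ AtMostOn S F c)) ∧
    -- 4. in general at most the factor `R` is lost
    (∀ (S : Set ℕ) (R : ℝ), 1 ≤ R → Meets S R → ∀ (k : ℕ) (F : SimpleGraph (Fin k)) (c : ℝ),
      0 ≤ c → AtMostOn S F c → AtMost F (R * c)) ∧
    -- 5. examples
    Meets {n | ∃ j : ℕ, n = 2 ^ (2 ^ j)} 2 ∧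
      ∀ R : ℝ, 1 < R → Meets {n | ∃ j : ℕ, n = 2 ^ (j ^ 2)} R := by
  have h4 : ∀ (S : Set ℕ) (R : ℝ), 1 ≤ R → Meets S R → ∀ (k : ℕ) (F : SimpleGraph (Fin k))
      (c : ℝ), 0 ≤ c → AtMostOn S F c → AtMost F (R * c) := by
    intro S R hR hS k F c hc h
    exact Pool.Agent.Q208.PC.atMost_of_colAt F (mul_nonneg (by linarith) hc)
      (Pool.Agent.Q208.PC.sparse (Pool.Agent.Q208.PC.ff_mono F) hc hR hS h)
  have h5 : ∀ (S : Set ℕ) (k : ℕ) (F : SimpleGraph (Fin k)) (c : ℝ), 0 ≤ c → AtMost F c →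
      AtMostOn S F c := by
    intro S k F c hc h
    exact Pool.Agent.Q208.PC.colOn_of_colAt (Pool.Agent.Q208.PC.colAt_of_atMost F hc h)
  refine ⟨⟨?_, ?_⟩, fun k F => ⟨?_, ?_⟩, ?_, h4, Pool.Agent.Q208.PC.meets_sq,
    Pool.Agent.Q208.PC.logDense_sq⟩
  · rintro ⟨c, hc, h⟩
    exact ⟨c, hc, fun k F => h5 _ k F c hc.le (h k F)⟩
  · rintro ⟨c, hc, h⟩
    exact ⟨2 * c, by linarith, fun k F => h4 _ 2 (by norm_num) Pool.Agent.Q208.PC.meets_sq k F c
      hc.le (h k F)⟩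
  · rintro ⟨c, hc, h⟩
    exact ⟨c, hc, h5 _ k F c hc h⟩
  · rintro ⟨c, hc, h⟩
    exact ⟨2 * c, by linarith, h4 _ 2 (by norm_num) Pool.Agent.Q208.PC.meets_sq k F c hc h⟩
  · intro S hS k F c hc
    exact (Pool.Agent.Q208.PC.atMost_iff F hc).trans
      (Pool.Agent.Q208.PC.sparse_iff (Pool.Agent.Q208.PC.ff_mono F) hc hS)

end Pool.Agent.Results.MP_349e33_co.SparseDegrees
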