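import Mathlib
import Pool.Agent.Y388.CF.Transversal

set_option autoImplicit false

/-!
# `c(F)` is at most the maximum degree for every `3`-colourable graph `F`

In particular `c(F) < ∞` for every `3`-colourable graph `F`: the Alon–Krivelevich–Sudakov
conjecture holds for all `3`-colourable graphs.

The proof is the theorem `three_colourable` of the starting library (`Pool.Agent.Y388.CF`).  Let
`X` be the colour class.  `F` is composed of the bipartite graph `F - X` and of the stars
with centre `x ∈ X`, glued along the neighbourhoods of the vertices of `X`; all pieces embed in
`K_{1,t,t}` with `X` going to the vertex of the class of size one.  Vertices of `X` with neighbours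
in only one of the other two classes are moved to the bipartite part; for the others the image of
the neighbourhood is a connected set of at most `k` vertices.  Hence `c(F) ≤ k · c(K_{1,t,t}) ≤ k`
by the gluing theorem (starting result `TreeGluing`) and `c(K_{1,t,t}) ≤ 1` (starting result
`AlmostBipartite`).
-/

namespace Pool.Agent.Results.MP_349e33_co.ThreeColourable

open Pool.Agent.TH855
open scoped ENNReal

/-- (1) If the finite graph `F` has a proper `3`-colouring in which all vertices of one of the
colours have degree at most `k ≥ 1`, then `c(F) ≤ k`.
(2) `c(F)` is finite for every `3`-colourable finite graph `F`. -/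
theorem result :
    (∀ (W : Type) [Fintype W] (F : SimpleGraph W) (C : F.Coloring (Fin 3)) (i : Fin 3) (k : ℕ),
      1 ≤ k → (∀ x, C x = i → (F.neighborSet x).ncard ≤ k) → c F ≤ k) ∧
    ∀ (W : Type) [Fintype W] (F : SimpleGraph W), F.Colorable 3 → c F < ∞ := by
  constructor
  · intro W _ F C i k hk hdeg
    exact Pool.Agent.Y388.CF.three_colourable F C i k hk hdeg
  · intro W _ F hF
    obtain ⟨C⟩ := hF
    have h := Pool.Agent.Y388.CF.three_colourable F C 0 (Fintype.card W + 1) (by omega)
      (fun x _ => by
        have h1 : (F.neighborSet x).ncard ≤ Nat.card W := Set.ncard_le_card _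
        rw [Nat.card_eq_fintype_card] at h1
        omega)
    exact lt_of_le_of_lt h (ENNReal.natCast_lt_top _)

end Pool.Agent.Results.MP_349e33_co.ThreeColourable
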